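import Pool.Agent.H83.X.T2

/-!
Theorem X: the theorem for ergodic systems (row KXX).
-/

set_option autoImplicit false

open MeasureTheory ProbabilityTheory Filter Topology Finset
open scoped Nat ENNReal

namespace Pool.Agent.H5.X

open Pool.Agent.H83.X
open Pool.Agent.H24.T2 (Pset)
open Pool.Agent.H24.AG (ee)
open Pool.Agent.H67.AG (avgP ul Inv Rt Av)

/-- a convex function is Lipschitz on `[-1, 1]` -/
theorem lip (Φ : ℝ → ℝ) (hΦ : ConvexOn ℝ Set.univ Φ) :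
    ∃ L : ℝ, 0 < L ∧ ∀ x y : ℝ, |x| ≤ 1 → |y| ≤ 1 → |Φ x - Φ y| ≤ L * |x - y| := by
  refine ⟨|Φ 2 - Φ 1| + |Φ (-1) - Φ (-2)| + 1, by positivity, ?_⟩
  have key : ∀ x y : ℝ, -1 ≤ x → x < y → y ≤ 1 →
      |Φ x - Φ y| ≤ (|Φ 2 - Φ 1| + |Φ (-1) - Φ (-2)| + 1) * |x - y| := by
    intro x y hx hxy hy
    have hd : 0 < y - x := sub_pos.2 hxy
    have e1 : (Φ y - Φ x) / (y - x) ≤ Φ 2 - Φ 1 := by
      have h1 : (Φ y - Φ x) / (y - x) ≤ (Φ 2 - Φ y) / (2 - y) :=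
        hΦ.slope_mono_adjacent (Set.mem_univ x) (Set.mem_univ 2) hxy (by linarith)
      rcases eq_or_lt_of_le hy with hy1 | hy1
      · rw [hy1] at h1 ⊢
        refine h1.trans (le_of_eq ?_)
        norm_num
      · have h2 : (Φ 1 - Φ y) / (1 - y) ≤ (Φ 2 - Φ 1) / (2 - 1) :=
          hΦ.slope_mono_adjacent (Set.mem_univ y) (Set.mem_univ 2) hy1 (by norm_num)
        have h3 : (Φ y - Φ x) / (y - x) ≤ (Φ 1 - Φ y) / (1 - y) :=
          hΦ.slope_mono_adjacent (Set.mem_univ x) (Set.mem_univ 1) hxy hy1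
        refine (h3.trans h2).trans (le_of_eq ?_)
        norm_num
    have e2 : Φ (-1) - Φ (-2) ≤ (Φ y - Φ x) / (y - x) := by
      rcases eq_or_lt_of_le hx with hx1 | hx1
      · rw [← hx1]
        have h1 : (Φ (-1) - Φ (-2)) / (-1 - (-2)) ≤ (Φ y - Φ (-1)) / (y - (-1)) :=
          hΦ.slope_mono_adjacent (Set.mem_univ (-2)) (Set.mem_univ y) (by norm_num)
            (by linarith)
        refine (le_of_eq ?_).trans h1
        norm_num
      · have h1 : (Φ (-1) - Φ (-2)) / (-1 - (-2)) ≤ (Φ x - Φ (-1)) / (x - (-1)) :=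
          hΦ.slope_mono_adjacent (Set.mem_univ (-2)) (Set.mem_univ x) (by norm_num) hx1
        have h2 : (Φ x - Φ (-1)) / (x - (-1)) ≤ (Φ y - Φ x) / (y - x) :=
          hΦ.slope_mono_adjacent (Set.mem_univ (-1)) (Set.mem_univ y) hx1 hxy
        refine (le_of_eq ?_).trans (h1.trans h2)
        norm_num
    rw [div_le_iff₀ hd] at e1
    rw [le_div_iff₀ hd] at e2
    have a1 := le_abs_self (Φ 2 - Φ 1)
    have a2 := neg_abs_le (Φ (-1) - Φ (-2))
    have a3 := abs_nonneg (Φ 2 - Φ 1)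
    have a4 := abs_nonneg (Φ (-1) - Φ (-2))
    rw [abs_sub_comm x y, abs_of_pos hd, abs_le]
    constructor
    · nlinarith
    · nlinarith
  intro x y hx hy
  rw [abs_le] at hx hy
  rcases lt_trichotomy x y with h | h | h
  · exact key x y hx.1 h hy.2
  · rw [h]
    simp
  · rw [abs_sub_comm (Φ x), abs_sub_comm x]
    exact key y x hy.1 h hx.2

theorem int_le {Ω : Type} [MeasurableSpace Ω] (P : Measure Ω) [IsProbabilityMeasure P]
    (E : Set Ω) (f : Ω → ℝ) (hf : ∀ ω, |f ω| ≤ 1) : |∫ ω in E, f ω ∂P| ≤ 1 := by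
  have h := norm_setIntegral_le_of_norm_le_const (μ := P) (s := E) (f := f) (C := 1)
    (measure_lt_top P E) (fun x _ => by rw [Real.norm_eq_abs]; exact hf x)
  rw [Real.norm_eq_abs] at h
  refine h.trans ?_
  rw [one_mul]
  exact measureReal_le_one

theorem mul_le {a b : ℝ} (ha : |a| ≤ 1) (hb : |b| ≤ 1) : |a * b| ≤ 1 := by
  rw [abs_mul]
  exact mul_le_one₀ ha (abs_nonneg b) hb

theorem pf_KXX (h1 : T_APX) (h2 : T_ERR) (h3 : T_PNT) (h4 : T_TPX) : T_KXX := by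
  intro Ω _ P _ T s E q Φ w h M u η hT hs hs1 hs0 hE hq hTE hΦ hw hh hM hη
  obtain ⟨L, hL, hLip⟩ := lip Φ hΦ
  have hq2 : (0 : ℝ) < (q : ℝ) + 2 := by positivity
  set t : ℝ := η / (8 * ((q : ℝ) + 2) * L) with ht
  have ht0 : 0 < t := by positivity
  have htL : L * (4 * ((q : ℝ) + 2) * t) = η / 2 := by
    rw [ht]
    field_simp
    ring
  obtain ⟨F, hF⟩ := h1 Ω P T s (t ^ 4 / 16) hT hs hs1 hs0 (by positivity)
  obtain ⟨m1, hm1⟩ := h2 Ω P T s F E q h t hT.toMeasurePreserving hs hs1 hE hq hTE hh ht0 hF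
  obtain ⟨S, c, e, hS, hb, he, heq, hde, hlim⟩ := h3 Ω P T s F E q (t ^ 4 / 16) hT hE hq hTE hF
  obtain ⟨m2, hm2⟩ := h4 S c q e (fun n => ∫ ω in E, F ω * F (T^[n] ω) ∂P) (P.real E) Φ w h M u
    (η / 2) hS hb hq he heq hde hlim hΦ hw hh hM (by positivity)
  refine ⟨max m1 m2, fun m hm => ?_⟩
  have g1 := hm1 m ((le_max_left _ _).trans hm)
  have g2 := hm2 m ((le_max_right _ _).trans hm)
  have hmono : avgP 2 m (fun p => if p ≡ u [MOD M] then
      w p * (Φ (∫ ω in E, s ω * s (T^[p * h] ω) ∂P) - cU Φ (P.real E)) else 0) ≤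
      avgP 2 m (fun p => if p ≡ u [MOD M] then
        w p * (Φ (∫ ω in E, F ω * F (T^[p * h] ω) ∂P) - cU Φ (P.real E)) else 0) +
      L * avgP 2 m (fun p =>
        |∫ ω in E, s ω * s (T^[p * h] ω) ∂P - ∫ ω in E, F ω * F (T^[p * h] ω) ∂P|) := by
    unfold avgP
    rw [mul_div_assoc', ← add_div]
    refine div_le_div_of_nonneg_right ?_ (Nat.cast_nonneg _)
    rw [Finset.mul_sum, ← Finset.sum_add_distrib]
    refine Finset.sum_le_sum fun p _ => ?_
    have b1 : |∫ ω in E, s ω * s (T^[p * h] ω) ∂P| ≤ 1 :=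
      int_le P E _ fun ω => mul_le (hs1 _) (hs1 _)
    have b2 : |∫ ω in E, F ω * F (T^[p * h] ω) ∂P| ≤ 1 :=
      int_le P E _ fun ω => mul_le (hF.bd _) (hF.bd _)
    have b3 := (le_abs_self _).trans (hLip _ _ b1 b2)
    have b4 := hw.nn p
    have b5 := hw.le p
    have b6 : 0 ≤ L * |∫ ω in E, s ω * s (T^[p * h] ω) ∂P -
        ∫ ω in E, F ω * F (T^[p * h] ω) ∂P| := by positivity
    split_ifs
    · nlinarith [mul_le_mul_of_nonneg_left b3 b4, mul_le_mul_of_nonneg_right b5 b6]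
    · simpa using b6
  calc _ ≤ _ := hmono
    _ ≤ η / 2 + L * (4 * ((q : ℝ) + 2) * t) :=
        add_le_add g2 (mul_le_mul_of_nonneg_left g1 hL.le)
    _ = η := by rw [htL]; ring

end Pool.Agent.H5.X
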